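import Pool.Agent.Lib.MP_10e784_agL.Defs
import Pool.Agent.Lib.MP_17a322_ntCI.HMo
import Pool.Agent.Lib.MP_17a322_ntOC.OXDef
import Pool.Agent.Lib.MP_17a322_ntVK.Defs

/-!
# Curves over fixed products of elliptic curves and all elliptic curves: the definitions of the statement
-/

set_option autoImplicit false

namespace BI7

open BLS MWS

/-- the indices of the coefficients of `s` sections `F_1, .., F_s`, `F_j` a section of
`O(2 d_{j1} O) ⊠ .. ⊠ O(2 d_{jg} O) ⊠ O(ν_j)` on `E_1 × .. × E_g × ℙ^M` -/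
abbrev IxS (M : ℕ) {g s : ℕ} (ν : Fin s → ℕ) (d : Fin s → Fin g → ℕ) : Type :=
  Σ j : Fin s, Mo M (ν j) × ((l : Fin g) → Ix (d j l))

/-- the value of `F_j` at the point `(P, u)` over `K`; `a` are the coefficients -/
def sec (K : Type) [Field K] {M g s : ℕ} {ν : Fin s → ℕ} {d : Fin s → Fin g → ℕ} (a : IxS M ν d → ℤ)
    (P : Fin g → Option (K × K)) (u : Fin (M + 1) → K) (j : Fin s) : K :=
  ∑ t : Mo M (ν j) × ((l : Fin g) → Ix (d j l)), (a ⟨j, t⟩ : K) * (mo u t.1 * ∏ l, basK K (d j l) (P l) (t.2 l))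

/-- `B` is the product of the elliptic curves `y² = x³ + (B l).1 x + (B l).2`, `Y` the closed subset of `B × ℙ^M` on which the
sections with the coefficients `b` vanish.  For every point `P` of `B` over the algebraic closure there are `r` linear
forms without common zero on the fibre of `Y` over `P`: all the fibres have dimension at most `r - 1` -/
def Fib {h M w : ℕ} {δ : Fin w → ℕ} {d' : Fin w → Fin h → ℕ} (B : Fin h → ℤ × ℤ) (b : IxS M δ d' → ℤ) (r : ℕ) : Prop :=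
  ∀ P : Fin h → Option (AlgebraicClosure ℚ × AlgebraicClosure ℚ), (∀ l, PtK _ (B l).1 (B l).2 (P l)) →
    ∃ ell : Fin r → Fin (M + 1) → AlgebraicClosure ℚ, ∀ u : Fin (M + 1) → AlgebraicClosure ℚ,
      (∀ k, sec _ b P u k = 0) → (∀ a, ∑ c, ell a c * u c = 0) → u = 0

/-- the product of the prime numbers which divide `n` -/
def rad (n : ℤ) : ℕ := ∏ p ∈ n.natAbs.primeFactors, p

/-- the factors `γ_j ≠ 0` (integers) such that the product of the prime numbers which divide one of the `γ_j`, `j ∈ R`,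
is at most `T` -/
def Fac {s : ℕ} (R : Finset (Fin s)) (T : ℝ) : Set (Fin s → ℤ) :=
  {γ | (∀ j, γ j ≠ 0) ∧ (rad (∏ j ∈ R, γ j) : ℝ) ≤ T}

/-- the curve `X` in `Y × E_1 × .. × E_g`, `E_l : y² = x³ + (E l).1 x + (E l).2`, given by `F_j = 0` for `j` not in `R` and
by the cyclic covers `γ_j t ^ (ex j) = F_j` for `j` in `R`, has a point over `K` for some factors `γ` in `G`; `a` are the
coefficients of the `F_j` -/
def Pnt (K : Type) [Field K] {h g M w s : ℕ} {δ : Fin w → ℕ} {d' : Fin w → Fin h → ℕ} {ν : Fin s → ℕ}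
    {d : Fin s → Fin (h + g) → ℕ} (G : Set (Fin s → ℤ)) (R : Finset (Fin s)) (ex : Fin s → ℕ) (B : Fin h → ℤ × ℤ)
    (b : IxS M δ d' → ℤ) (E : Fin g → ℤ × ℤ) (a : IxS M ν d → ℤ) : Prop :=
  ∃ γ ∈ G, ∃ (P : Fin (h + g) → Option (K × K)) (u : Fin (M + 1) → K),
    (∀ l, PtK K (Fin.append B E l).1 (Fin.append B E l).2 (P l)) ∧ u ≠ 0 ∧
    (∀ k, sec K b (fun l => P (Fin.castAdd g l)) u k = 0) ∧ (∀ j ∉ R, sec K a P u j = 0) ∧
    ∀ j ∈ R, ∃ t : K, ((γ j : ℤ) : K) * t ^ ex j = sec K a P u j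

/-- `g` elliptic curves `y² = x³ + A_l x + B_l` with `|A_l| ≤ H²`, `|B_l| ≤ H³` and coefficients of absolute value at
most `H` -/
def Box {ι : Type} {g : ℕ} (H : ℕ) (z : (Fin g → ℤ × ℤ) × (ι → ℤ)) : Prop :=
  (∀ l, 4 * (z.1 l).1 ^ 3 + 27 * (z.1 l).2 ^ 2 ≠ 0 ∧ |(z.1 l).1| ≤ (H : ℤ) ^ 2 ∧ |(z.1 l).2| ≤ (H : ℤ) ^ 3) ∧
    ∀ k, |z.2 k| ≤ (H : ℤ)

/-- the double cover `γ t² = φ` of the elliptic curve `E : y² = x³ + E.1 x + E.2` has a rational point for some integer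
`γ ≠ 0` with `rad γ ≤ T`; `a` are the coefficients of `φ` in `L(2 d O)` -/
def Tw (E : ℤ × ℤ) {d : ℕ} (T : ℝ) (a : Ix d → ℤ) : Prop :=
  ∃ γ : ℤ, γ ≠ 0 ∧ (rad γ : ℝ) ≤ T ∧ ∃ (P : Option (ℚ × ℚ)) (t : ℚ), PtK ℚ E.1 E.2 P ∧
    (γ : ℚ) * t ^ 2 = ∑ k, (a k : ℚ) * basK ℚ d P k

end BI7
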