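import Pool.Agent.Lib.MP_10e784_agB7.Stmt
import Pool.Agent.Lib.MP_17a322_ntOC.TD
import Pool.Agent.Lib.MP_17a322_ntVU.W1

/-!
# The places at which the factors are not units
-/

set_option autoImplicit false

namespace BI7

open Finset NumberField

private theorem T0_coe (n : ℤ) : algebraMap (𝓞 ℚ) ℚ ((n : ℤ) : 𝓞 ℚ) = (n : ℚ) := map_intCast (algebraMap (𝓞 ℚ) ℚ) n

private theorem T0_int (v : FinitePlace ℚ) (n : ℤ) : v ((n : ℤ) : ℚ) ≤ 1 := by
  have h1 := FinitePlace.norm_le_one ℚ v.maximalIdeal ((n : ℤ) : 𝓞 ℚ)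
  rw [FinitePlace.norm_embedding_eq, T0_coe] at h1
  exact h1

private theorem T0_mem (v : FinitePlace ℚ) (n : ℤ) (h : v ((n : ℤ) : ℚ) ≠ 1) :
    ((n : ℤ) : 𝓞 ℚ) ∈ v.maximalIdeal.asIdeal := by
  rw [← FinitePlace.norm_lt_one_iff_mem ℚ, FinitePlace.norm_embedding_eq, T0_coe]
  exact lt_of_le_of_ne (T0_int v n) h

theorem rad_pos (n : ℤ) : 1 ≤ rad n := by
  refine Nat.one_le_iff_ne_zero.2 (prod_ne_zero_iff.2 fun p hp => ?_)
  exact (Nat.prime_of_mem_primeFactors hp).ne_zero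

/-- a prime ideal which contains `n` contains the product of the primes which divide `n` -/
private theorem T0_rad (v : FinitePlace ℚ) (n : ℤ) (hn : n ≠ 0) (h : ((n : ℤ) : 𝓞 ℚ) ∈ v.maximalIdeal.asIdeal) :
    ((rad n : ℕ) : 𝓞 ℚ) ∈ v.maximalIdeal.asIdeal := by
  have hp := v.maximalIdeal.isPrime
  have h1 : ((n.natAbs : ℕ) : 𝓞 ℚ) ∈ v.maximalIdeal.asIdeal := by
    rcases Int.natAbs_eq n with h2 | h2
    · rw [h2, Int.cast_natCast] at h
      exact h
    · rw [h2, Int.cast_neg, neg_mem_iff, Int.cast_natCast] at h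
      exact h
  have h2 : ∀ m : ℕ, m ≠ 0 → m.primeFactors ⊆ n.natAbs.primeFactors → ((m : ℕ) : 𝓞 ℚ) ∈ v.maximalIdeal.asIdeal →
      ((rad n : ℕ) : 𝓞 ℚ) ∈ v.maximalIdeal.asIdeal := by
    intro m
    induction m using Nat.strong_induction_on with
    | _ m ih =>
      intro hm0 hm hmem
      rcases eq_or_ne m 1 with rfl | hm1
      · rw [Nat.cast_one] at hmem
        exact absurd ((Ideal.eq_top_iff_one _).2 hmem) hp.ne_top
      · obtain ⟨p, hpp, k, rfl⟩ := Nat.exists_prime_and_dvd hm1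
        have hk0 : k ≠ 0 := by
          rintro rfl
          exact hm0 (mul_zero p)
        rw [Nat.cast_mul] at hmem
        rcases hp.mem_or_mem hmem with h3 | h3
        · have h4 : p ∈ n.natAbs.primeFactors := hm (Nat.mem_primeFactors.2 ⟨hpp, dvd_mul_right p k, hm0⟩)
          obtain ⟨q, hq⟩ : p ∣ rad n := dvd_prod_of_mem _ h4
          rw [hq, Nat.cast_mul]
          exact Ideal.mul_mem_right _ _ h3
        · exact ih k (by
            have := hpp.two_le
            have : 0 < k := Nat.pos_of_ne_zero hk0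
            nlinarith) hk0 ((Nat.primeFactors_mono (dvd_mul_left k p) hm0).trans hm) h3
  exact h2 n.natAbs (Int.natAbs_ne_zero.2 hn) (Finset.Subset.refl _) h1

theorem places {s : ℕ} (R : Finset (Fin s)) (γ : Fin s → ℤ) (hγ : ∀ j, γ j ≠ 0) : ∃ S : Finset (FinitePlace ℚ),
    ∏ v ∈ S, (OCM.nrm v : ℝ) ≤ (rad (∏ j ∈ R, γ j) : ℝ) ∧ ∀ j ∈ R, ∀ v ∉ S, v ((γ j : ℤ) : ℚ) = 1 := by
  classical
  obtain ⟨D, hD⟩ : ∃ D : ℤ, D = ∏ j ∈ R, γ j := ⟨_, rfl⟩
  have hD0 : D ≠ 0 := by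
    rw [hD]
    exact prod_ne_zero_iff.2 fun j _ => hγ j
  rw [← hD]
  have hfin : (Function.mulSupport fun v : FinitePlace ℚ => v ((D : ℤ) : ℚ)).Finite :=
    FinitePlace.hasFiniteMulSupport (Int.cast_ne_zero.2 hD0)
  refine ⟨hfin.toFinset, ?_, fun j hj v hv => ?_⟩
  · have hinj : Function.Injective fun v : FinitePlace ℚ => v.maximalIdeal.asIdeal := fun a b h =>
      FinitePlace.maximalIdeal_injective (IsDedekindDomain.HeightOneSpectrum.asIdeal_injective h)
    have h1 : ∏ I ∈ hfin.toFinset.image (fun v : FinitePlace ℚ => v.maximalIdeal.asIdeal), I ∣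
        Ideal.span {((rad D : ℕ) : 𝓞 ℚ)} := by
      refine Finset.prod_primes_dvd _ ?_ ?_
      · intro I hI
        obtain ⟨v, hv, rfl⟩ := Finset.mem_image.1 hI
        exact v.maximalIdeal.prime
      · intro I hI
        obtain ⟨v, hv, rfl⟩ := Finset.mem_image.1 hI
        rw [Ideal.dvd_span_singleton]
        exact T0_rad v D hD0 (T0_mem v D (Set.Finite.mem_toFinset hfin |>.1 hv))
    rw [Finset.prod_image fun a _ b _ h => hinj h] at h1
    have h2 := map_dvd Ideal.absNorm h1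
    rw [map_prod, Ideal.absNorm_span_natCast, RingOfIntegers.rank, Module.finrank_self, pow_one] at h2
    have h3 := Nat.le_of_dvd (rad_pos D) h2
    exact_mod_cast h3
  · have h1 : v ((D : ℤ) : ℚ) = 1 := by
      by_contra h2
      exact hv ((Set.Finite.mem_toFinset hfin).2 h2)
    rw [hD, ← mul_prod_erase R γ hj, Int.cast_mul, map_mul] at h1
    have h2 := T0_int v (γ j)
    have h3 := T0_int v (∏ j ∈ R.erase j, γ j)
    have h4 : 0 ≤ v ((γ j : ℤ) : ℚ) := apply_nonneg v _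
    nlinarith

end BI7
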