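import Pool.Agent.Lib.MP_10e784_agB7.T0
import Pool.Agent.Lib.MP_17a322_ntVY.Stmt2
import Pool.Agent.Lib.MP_17a322_ntVK.SDefs

/-!
# From the ring of integers of `ℚ` to the integers
-/

set_option autoImplicit false

namespace BI7

open Finset NumberField

/-- a basis of `𝓞 ℚ` -/
theorem basis_rat : ∃ ω : Module.Basis (Fin 1) ℤ (𝓞 ℚ), ω 0 = 1 := by
  refine ⟨(Module.Basis.singleton (Fin 1) ℤ).map
    Rat.ringOfIntegersEquiv.symm.toAddEquiv.toIntLinearEquiv, ?_⟩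
  rw [Module.Basis.map_apply, Module.Basis.singleton_apply]
  exact map_one Rat.ringOfIntegersEquiv.symm

theorem el_one (ω : Module.Basis (Fin 1) ℤ (𝓞 ℚ)) (hω : ω 0 = 1) (c : Fin 1 → ℤ) : VK.el ω c = ((c 0 : ℤ) : 𝓞 ℚ) := by
  unfold VK.el
  rw [Fin.sum_univ_one, hω, mul_one]

theorem coe_rat (n : ℤ) : (((n : ℤ) : 𝓞 ℚ) : ℚ) = (n : ℚ) := map_intCast (algebraMap (𝓞 ℚ) ℚ) n

/-- relabelling of the indices -/
def rl {M g s : ℕ} {ν : Fin s → ℕ} {d : Fin s → Fin g → ℕ} : VK.IxM Unit M ν d ≃ IxS M ν d where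
  toFun t := ⟨t.1, (t.2.1, t.2.2.2)⟩
  invFun t := ⟨t.1, (t.2.1, ((), t.2.2))⟩
  left_inv _ := rfl
  right_inv _ := rfl

/-- no Laurent monomials -/
def E0 {s : ℕ} : Fin s → Unit → Fin 0 → ℤ := fun _ _ i => i.elim0

theorem bas_eq (K : Type) [Field K] : RamCov.bas K = BLS.basK K := by
  funext d P k
  rcases P with _ | z <;> rcases k with i | i <;> rfl

theorem pt_eq (K : Type) [Field K] (A B : ℤ) (P : Option (K × K)) : BLS.PtK K A B P ↔ VK.IsPt (A : K) (B : K) P := by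
  rcases P with _ | z <;> exact Iff.rfl

theorem sM_eq (K : Type) [Field K] {M g s : ℕ} {ν : Fin s → ℕ} {d : Fin s → Fin g → ℕ} (a : IxS M ν d → ℤ)
    (x : Fin 0 → K) (P : Fin g → Option (K × K)) (u : Fin (M + 1) → K) (j : Fin s) :
    VK.sM E0 (fun t => ((a (rl t) : ℤ) : K)) x P u j = sec K a P u j := by
  unfold VK.sM sec
  refine Fintype.sum_equiv ((Equiv.refl _).prodCongr (Equiv.punitProd _)) _ _ fun t => ?_
  unfold VK.bT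
  rw [Finset.univ_eq_empty, Finset.prod_empty, one_mul, bas_eq]
  rfl

theorem fib_of_int {h M w r : ℕ} {δ : Fin w → ℕ} {d' : Fin w → Fin h → ℕ} {B : Fin h → ℤ × ℤ} {b : IxS M δ d' → ℤ}
    (hF : Fib B b r) : VK.FibP (K := ℚ) (fun l => (((B l).1 : ℤ) : 𝓞 ℚ)) (fun l => (((B l).2 : ℤ) : 𝓞 ℚ)) E0
      (fun t => ((b (rl t) : ℤ) : 𝓞 ℚ)) r := by
  intro x P _ hP
  have h0 : ∀ n : ℤ, algebraMap ℚ (AlgebraicClosure ℚ) (((n : ℤ) : 𝓞 ℚ) : ℚ) = (n : AlgebraicClosure ℚ) := by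
    intro n
    rw [coe_rat, map_intCast]
  obtain ⟨ell, hell⟩ := hF P (fun l => by
    have h1 : VK.IsPt (algebraMap ℚ (AlgebraicClosure ℚ) ((((B l).1 : ℤ) : 𝓞 ℚ) : ℚ))
      (algebraMap ℚ (AlgebraicClosure ℚ) ((((B l).2 : ℤ) : 𝓞 ℚ) : ℚ)) (P l) := hP l
    rw [h0, h0] at h1
    exact (pt_eq _ _ _ _).2 h1)
  refine ⟨ell, fun u hu hl => hell u (fun k => ?_) hl⟩
  have h1 := hu k
  have h2 : (fun t : VK.IxM Unit M δ d' => algebraMap (𝓞 ℚ) (AlgebraicClosure ℚ) ((b (rl t) : ℤ) : 𝓞 ℚ)) =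
      fun t => ((b (rl t) : ℤ) : AlgebraicClosure ℚ) := by
    funext t
    exact map_intCast _ _
  have h3 : (fun t : VK.IxM Unit M δ d' => algebraMap ℚ (AlgebraicClosure ℚ) ((((b (rl t) : ℤ) : 𝓞 ℚ) : 𝓞 ℚ) : ℚ)) =
      fun t => ((b (rl t) : ℤ) : AlgebraicClosure ℚ) := funext fun t => h0 _
  rw [← sM_eq (AlgebraicClosure ℚ) b x P u k, ← h2]
  exact h1

theorem box_fin {K : Type} [Field K] [NumberField K] {e g : ℕ} {τ : Type} [Fintype τ] (ω : Fin e → 𝓞 K) (H : ℕ)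
    (Q' : VK.Cv e g × (τ → ℤ) → Prop) : Finite {z : VK.Cv e g × (τ → ℤ) // VK.Box ω H z ∧ Q' z} := by
  let f : {z : VK.Cv e g × (τ → ℤ) // VK.Box ω H z ∧ Q' z} →
      (Fin g → (Fin e → (Icc (-(H : ℤ) ^ 2) ((H : ℤ) ^ 2) : Finset ℤ)) ×
        (Fin e → (Icc (-(H : ℤ) ^ 3) ((H : ℤ) ^ 3) : Finset ℤ))) × (τ → (Icc (-(H : ℤ)) H : Finset ℤ)) :=
    fun z => (fun l => (fun i => ⟨(z.1.1 l).1 i, mem_Icc.2 (abs_le.1 ((z.2.1.1 l).2.1 i))⟩,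
      fun i => ⟨(z.1.1 l).2 i, mem_Icc.2 (abs_le.1 ((z.2.1.1 l).2.2 i))⟩),
      fun i => ⟨z.1.2 i, mem_Icc.2 (abs_le.1 (z.2.1.2 i))⟩)
  refine Finite.of_injective f fun a b hab => ?_
  have h1 : a.1.1 = b.1.1 := by
    funext l
    refine Prod.ext (funext fun i => ?_) (funext fun i => ?_)
    · exact congrArg (fun w => ((w.1 l).1 i : ℤ)) hab
    · exact congrArg (fun w => ((w.1 l).2 i : ℤ)) hab
  have h2 : a.1.2 = b.1.2 := funext fun i => congrArg (fun w => (w.2 i : ℤ)) hab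
  exact Subtype.ext (Prod.ext h1 h2)

/-- the family of all curves of the given type, over the integers, is contained in the family over `𝓞 ℚ` -/
theorem cnt_le (ω : Module.Basis (Fin 1) ℤ (𝓞 ℚ)) (hω : ω 0 = 1) {h g M w s : ℕ} {δ : Fin w → ℕ}
    {d' : Fin w → Fin h → ℕ} {ν : Fin s → ℕ} {d : Fin s → Fin (h + g) → ℕ} (T : ℝ) (R : Finset (Fin s))
    (ex : Fin s → ℕ) (B : Fin h → ℤ × ℤ) (b : IxS M δ d' → ℤ) (H : ℕ) :
    Nat.card {z : (Fin g → ℤ × ℤ) × (IxS M ν d → ℤ) // Box H z ∧ Pnt ℚ (Fac R T) R ex B b z.1 z.2} ≤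
    Nat.card {z : VK.Cv 1 g × (VK.IxM Unit M ν d × Fin 1 → ℤ) // VK.Box ω H z ∧
      ∃ S : Finset (FinitePlace ℚ), ∏ v ∈ S, (OCM.nrm v : ℝ) ≤ T ∧
      VK.IntQ (⊥ ⊔ VU.Su S) S ∅ ∅ R ex E0 (fun t : VK.IxM Unit M δ d' => ((((b (rl t) : ℤ) : 𝓞 ℚ) : 𝓞 ℚ) : ℚ)) E0
        (VK.aA ω (fun l => (((B l).1 : ℤ) : 𝓞 ℚ)) z.1) (VK.aB ω (fun l => (((B l).2 : ℤ) : 𝓞 ℚ)) z.1) (VK.cf ω z.2)} := by
  classical
  obtain ⟨f, hf⟩ : ∃ f : (Fin g → ℤ × ℤ) × (IxS M ν d → ℤ) → VK.Cv 1 g × (VK.IxM Unit M ν d × Fin 1 → ℤ),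
      f = fun z => (fun l => (fun _ => (z.1 l).1, fun _ => (z.1 l).2), fun q => z.2 (rl q.1)) := ⟨_, rfl⟩
  have hbox : ∀ z : (Fin g → ℤ × ℤ) × (IxS M ν d → ℤ), Box H z → VK.Box ω H (f z) := by
    rintro z ⟨h1, h2⟩
    rw [hf]
    refine ⟨fun l => ⟨?_, fun i => (h1 l).2.1, fun i => (h1 l).2.2⟩, fun i => h2 _⟩
    show VK.ds (VK.el ω fun _ => (z.1 l).1) (VK.el ω fun _ => (z.1 l).2) ≠ 0
    rw [el_one ω hω, el_one ω hω]
    unfold VK.ds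
    exact_mod_cast (h1 l).1
  have hpt : ∀ z : (Fin g → ℤ × ℤ) × (IxS M ν d → ℤ), Pnt ℚ (Fac R T) R ex B b z.1 z.2 →
      ∃ S : Finset (FinitePlace ℚ), ∏ v ∈ S, (OCM.nrm v : ℝ) ≤ T ∧
      VK.IntQ (⊥ ⊔ VU.Su S) S ∅ ∅ R ex E0 (fun t : VK.IxM Unit M δ d' => ((((b (rl t) : ℤ) : 𝓞 ℚ) : 𝓞 ℚ) : ℚ)) E0
        (VK.aA ω (fun l => (((B l).1 : ℤ) : 𝓞 ℚ)) (f z).1) (VK.aB ω (fun l => (((B l).2 : ℤ) : 𝓞 ℚ)) (f z).1)
        (VK.cf ω (f z).2) := by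
    rintro z ⟨γ, ⟨hγ0, hγT⟩, P, u, hP, hu, hb, h0, hR⟩
    obtain ⟨S, hS1, hS2⟩ := places R γ hγ0
    have eb : (fun t : VK.IxM Unit M δ d' => ((((b (rl t) : ℤ) : 𝓞 ℚ) : 𝓞 ℚ) : ℚ)) = fun t => ((b (rl t) : ℤ) : ℚ) :=
      funext fun t => coe_rat _
    have ea : VK.cf ω (f z).2 = fun t => ((z.2 (rl t) : ℤ) : ℚ) := by
      funext t
      rw [hf]
      unfold VK.cf
      rw [el_one ω hω]
      exact coe_rat _
    refine ⟨S, hS1.trans hγT, fun i => i.elim0, fun i => i.elim0, P, u, fun l => ?_, hu, fun k _ => ?_, fun j _ hj => ?_, fun j hj => ?_,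
      fun v _ => ⟨fun k hk => absurd hk (Finset.notMem_empty k), fun j hj => absurd hj (Finset.notMem_empty j)⟩⟩
    · have h1 := hP l
      revert h1
      refine Fin.addCases (fun i => ?_) (fun i => ?_) l
      · intro h1
        rw [Fin.append_left] at h1
        unfold VK.aA VK.aB
        rw [Fin.append_left, Fin.append_left, coe_rat, coe_rat]
        exact (pt_eq _ _ _ _).1 h1
      · intro h1
        rw [Fin.append_right] at h1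
        unfold VK.aA VK.aB
        rw [Fin.append_right, Fin.append_right, hf]
        show VK.IsPt ((VK.el ω fun _ => (z.1 i).1 : 𝓞 ℚ) : ℚ) ((VK.el ω fun _ => (z.1 i).2 : 𝓞 ℚ) : ℚ) _
        rw [el_one ω hω, el_one ω hω, coe_rat, coe_rat]
        exact (pt_eq _ _ _ _).1 h1
    · rw [eb, sM_eq]
      exact hb k
    · rw [ea, sM_eq]
      exact h0 j hj
    · obtain ⟨t, ht⟩ := hR j hj
      refine ⟨Units.mk0 ((γ j : ℤ) : ℚ) (Int.cast_ne_zero.2 (hγ0 j)), Subgroup.mem_sup_right fun v hv => hS2 j hj v hv, t,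
        ?_⟩
      rw [ea, sM_eq]
      exact ht.symm
  have hfin : Finite {z : VK.Cv 1 g × (VK.IxM Unit M ν d × Fin 1 → ℤ) // VK.Box ω H z ∧
      ∃ S : Finset (FinitePlace ℚ), ∏ v ∈ S, (OCM.nrm v : ℝ) ≤ T ∧
      VK.IntQ (⊥ ⊔ VU.Su S) S ∅ ∅ R ex E0 (fun t : VK.IxM Unit M δ d' => ((((b (rl t) : ℤ) : 𝓞 ℚ) : 𝓞 ℚ) : ℚ)) E0
        (VK.aA ω (fun l => (((B l).1 : ℤ) : 𝓞 ℚ)) z.1) (VK.aB ω (fun l => (((B l).2 : ℤ) : 𝓞 ℚ)) z.1) (VK.cf ω z.2)} :=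
    box_fin ω H _
  refine Nat.card_le_card_of_injective (fun z => ⟨f z.1, hbox z.1 z.2.1, hpt z.1 z.2.2⟩) fun z z' hz => ?_
  have h1 : f z.1 = f z'.1 := congrArg Subtype.val hz
  rw [hf] at h1
  refine Subtype.ext (Prod.ext (funext fun l => ?_) (funext fun t => ?_))
  · have h2 := congrFun (congrArg Prod.fst h1) l
    exact Prod.ext (congrFun (congrArg Prod.fst h2) 0) (congrFun (congrArg Prod.snd h2) 0)
  · exact congrFun (congrArg Prod.snd h1) (rl.symm t, 0)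

end BI7
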