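import Pool.Agent.Lib.MP_10e784_agB7.T1
import Pool.Agent.Lib.MP_17a322_ntOC.TQ
import Pool.Agent.Lib.MP_17a322_ntOC.TV
import Pool.Agent.Lib.MP_17a322_ntOC.PE
import Pool.Agent.Lib.MP_17a322_ntOC.PA
import Pool.Agent.Lib.MP_17a322_ntVK.RMain
import Pool.Agent.Lib.MP_10e784_agWP.QD

/-!
# The family of all curves
-/

set_option autoImplicit false

namespace BI7

open Finset NumberField

theorem fin_int {ι : Type} [Fintype ι] (H : ℕ) (X : (ι → ℤ) → Prop) :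
    Finite {a : ι → ℤ // (∀ i, |a i| ≤ (H : ℤ)) ∧ X a} := by
  have h1 : Finite {a : ι → ℤ // ∀ i, |a i| ≤ (H : ℤ)} := by
    have h2 : Set.Finite {a : ι → ℤ | ∀ i, |a i| ≤ (H : ℤ)} := by
      refine Set.Finite.subset (Set.Finite.pi (fun _ => Set.finite_Icc (-(H : ℤ)) H)) fun a ha i _ => ?_
      exact Set.mem_Icc.2 (abs_le.1 (ha i))
    exact h2
  exact Finite.of_injective (β := {a : ι → ℤ // ∀ i, |a i| ≤ (H : ℤ)}) (fun a => ⟨a.1, a.2.1⟩)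
    fun a b hab => Subtype.ext (congrArg (fun x => x.1) hab)

/-- the number of the curves of the family of height at most `H` with a rational point for some factors -/
noncomputable def num {h g M w s : ℕ} {δ : Fin w → ℕ} {d' : Fin w → Fin h → ℕ} {ν : Fin s → ℕ}
    {d : Fin s → Fin (h + g) → ℕ} (T : ℝ) (R : Finset (Fin s)) (ex : Fin s → ℕ) (B : Fin h → ℤ × ℤ)
    (b : IxS M δ d' → ℤ) (H : ℕ) : ℕ :=
  Nat.card {z : (Fin g → ℤ × ℤ) × (IxS M ν d → ℤ) // Box H z ∧ Pnt ℚ (Fac R T) R ex B b z.1 z.2}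

theorem card_rl {M g s : ℕ} {ν : Fin s → ℕ} {d : Fin s → Fin g → ℕ} :
    Fintype.card (VK.IxM Unit M ν d) = Fintype.card (IxS M ν d) := Fintype.card_congr rl

private theorem ds_int (a b : ℤ) (h : 4 * a ^ 3 + 27 * b ^ 2 ≠ 0) : VK.ds ((a : ℤ) : 𝓞 ℚ) ((b : ℤ) : 𝓞 ℚ) ≠ 0 := by
  intro h0
  unfold VK.ds at h0
  apply h
  exact_mod_cast h0

theorem clD_empty {h g w s : ℕ} (δ : Fin w → ℕ) (d' : Fin w → Fin h → ℕ) (ν : Fin s → ℕ) (d : Fin s → Fin (h + g) → ℕ) :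
    Set.finrank ℤ (VU.clD ∅ ∅ δ d' ν d) = 0 := by
  have h1 : VU.clD ∅ ∅ δ d' ν d = (∅ : Set (Fin (h + g) ⊕ Unit → ℤ)) := by
    ext x
    constructor
    · rintro (⟨k, hk, -⟩ | ⟨k, hk, -⟩)
      · exact absurd hk (Finset.notMem_empty k)
      · exact absurd hk (Finset.notMem_empty k)
    · intro hx
      exact absurd hx (Set.notMem_empty x)
  rw [h1]
  unfold Set.finrank
  rw [Submodule.span_empty]
  exact finrank_bot ℤ _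

/-- the case of complex multiplication -/
theorem family_cm {h : ℕ} (B : Fin h → ℤ × ℤ) (hB : ∀ l, 4 * (B l).1 ^ 3 + 27 * (B l).2 ^ 2 ≠ 0)
    (hCM : ∀ l, VK.HasCM ((B l).1 : ℚ) ((B l).2 : ℚ)) (m : ℕ) (hm : 1 ≤ m) : ∃ c : ℝ, 0 < c ∧ ∀ (r M w : ℕ)
    (δ : Fin w → ℕ) (d' : Fin w → Fin h → ℕ) (b : IxS M δ d' → ℤ), Fib B b r → ∃ ν0 : ℕ,
    ∀ (g s : ℕ) (ν : Fin s → ℕ) (d : Fin s → Fin (h + g) → ℕ) (R : Finset (Fin s)) (ex : Fin s → ℕ),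
    (∀ j ∈ R, 1 ≤ ex j ∧ ex j ∣ ν j ∧ ∀ l, ex j ∣ 2 * d j l) →
    (r + R.card ≤ s ∨ r + R.card ≤ s + 1 ∧ ((∃ j, (ν0 ≤ ν j ∨ M = 0) ∧ (j ∈ R → ¬ (ex j).Coprime m)) ∨
      (w = 0 ∧ R = ∅ ∧ M ≤ s ∧ (∀ j, 1 ≤ ν j) ∧ M + 1 ≤ ∑ j, ν j))) → ∃ C : ℝ, ∀ H : ℕ, 1 ≤ H →
    (num (ν := ν) (d := d) (Real.exp ((Real.log H) ^ c)) R ex B b H : ℝ) ≤
      C * (H : ℝ) ^ (Fintype.card (IxS M ν d) + 5 * g) * Real.exp (-(Real.log H) ^ c) := by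
  classical
  obtain ⟨ω, hω⟩ := basis_rat
  have : NeZero m := ⟨by omega⟩
  have hCM' : ∀ l, OCM.CMF (((B l).1 : ℤ) : 𝓞 ℚ) (((B l).2 : ℤ) : 𝓞 ℚ) := fun l =>
    OCM.cmf_of (ds_int _ _ (hB l)) (by
      rw [coe_rat, coe_rat]
      exact hCM l)
  have hSm := OCM.smo_of (CyclotomicField m ℚ) (fun l => (((B l).1 : ℤ) : 𝓞 ℚ)) (fun l => (((B l).2 : ℤ) : 𝓞 ℚ)) hCM'
  obtain ⟨c, hc, hh⟩ := OCM.inter_U ℚ (VK.factRK ℚ) WPL.factQ (CyclotomicField m ℚ) (fun l => (((B l).1 : ℤ) : 𝓞 ℚ))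
    (fun l => (((B l).2 : ℤ) : 𝓞 ℚ)) (fun l => ds_int _ _ (hB l)) hSm
  refine ⟨c, hc, fun r M w δ d' b hF => ?_⟩
  obtain ⟨ν0, hν0⟩ := hh 0 r M w Unit δ d' E0 (fun t => ((b (rl t) : ℤ) : 𝓞 ℚ)) (fib_of_int hF)
  refine ⟨ν0, fun g s ν d R ex hex hi => ?_⟩
  obtain ⟨C, hC⟩ := hν0 ⊥ ((Subgroup.fg_iff _).2 ⟨∅, Subgroup.closure_empty, Set.finite_empty⟩) 1 ω g s Unit ν E0 d ∅ ∅ R
    ex (fun k hk => absurd hk (Finset.notMem_empty k)) hex (by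
    rw [clD_empty, add_zero, Finset.sdiff_empty]
    refine hi.imp id fun ⟨hr, hi⟩ => ⟨hr, ?_⟩
    rcases hi with ⟨j, hj, hjR⟩ | ⟨h1, h2, h3⟩
    · exact Or.inl ⟨j, hj, fun h1 => absurd h1 (Finset.notMem_empty j), fun _ h2 => OCM.roots ℚ hm (hjR h2)⟩
    · exact Or.inr ⟨h1, rfl, h2, h3⟩)
  refine ⟨C, fun H hH => ?_⟩
  have h1 := hC H hH
  rw [one_mul, card_rl] at h1
  refine le_trans ?_ h1
  exact_mod_cast cnt_le ω hω _ R ex B b H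

/-- the case of the rank at most one -/
theorem family_r1 {h r M w : ℕ} {δ : Fin w → ℕ} {d' : Fin w → Fin h → ℕ} {B : Fin h → ℤ × ℤ} {b : IxS M δ d' → ℤ}
    (E : ℤ × ℤ) (hE : 4 * E.1 ^ 3 + 27 * E.2 ^ 2 ≠ 0) (hr : Module.finrank ℤ (VK.Pt (E.1 : ℚ) (E.2 : ℚ)) ≤ 1)
    (hB : ∀ l, B l = E) (hF : Fib B b r) : ∃ (c : ℝ) (ν0 : ℕ), 0 < c ∧
    ∀ (s : ℕ) (ν : Fin s → ℕ) (d : Fin s → Fin (h + 0) → ℕ) (R : Finset (Fin s)) (ex : Fin s → ℕ),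
    (∀ j ∈ R, 1 ≤ ex j ∧ ex j ∣ ν j ∧ ∀ l, ex j ∣ 2 * d j l) →
    (r + R.card ≤ s ∨ r + R.card ≤ s + 1 ∧ ((∃ j, (ν0 ≤ ν j ∨ M = 0) ∧ (j ∈ R → 2 ∣ ex j)) ∨
      (w = 0 ∧ R = ∅ ∧ M ≤ s ∧ (∀ j, 1 ≤ ν j) ∧ M + 1 ≤ ∑ j, ν j))) → ∃ C : ℝ, ∀ H : ℕ, 1 ≤ H →
    (num (g := 0) (ν := ν) (d := d) (Real.exp (c * (Real.log (Real.log H)) ^ 2)) R ex B b H : ℝ) ≤
      C * (H : ℝ) ^ Fintype.card (IxS M ν d) * Real.exp (-(c * (Real.log (Real.log H)) ^ 2)) := by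
  classical
  obtain ⟨ω, hω⟩ := basis_rat
  have hB' : B = fun _ => E := funext hB
  subst hB'
  have hfr : Module.finrank ℤ (VK.Pt (((E.1 : ℤ) : 𝓞 ℚ) : ℚ) (((E.2 : ℤ) : 𝓞 ℚ) : ℚ)) ≤ 1 := by
    rw [coe_rat, coe_rat]
    exact hr
  obtain ⟨c, ν0, hc, hh⟩ := OCM.rank_oneU (Module.finrank_self ℚ) (ds_int _ _ hE) hfr E0 (fun t => ((b (rl t) : ℤ) : 𝓞 ℚ)) (fib_of_int hF)
  refine ⟨c, ν0, hc, fun s ν d R ex hex hi => ?_⟩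
  obtain ⟨C, hC⟩ := hh ⊥ ((Subgroup.fg_iff _).2 ⟨∅, Subgroup.closure_empty, Set.finite_empty⟩) 1 ω s Unit ν E0 d R ex
    hex hi
  refine ⟨C, fun H hH => ?_⟩
  have h1 := hC H hH
  rw [Fintype.card_prod, Fintype.card_fin, mul_one, card_rl] at h1
  refine le_trans ?_ h1
  have h2 := cnt_le (g := 0) (ν := ν) (d := d) ω hω (Real.exp (c * (Real.log (Real.log H)) ^ 2)) R ex
    (fun _ : Fin h => E) b H
  refine le_trans (Nat.cast_le.2 h2) (Nat.cast_le.2 ?_)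
  have e1 : ∀ z : VK.Cv 1 0, VK.aA ω (fun _ : Fin h => ((E.1 : ℤ) : 𝓞 ℚ)) z = fun _ => (((E.1 : ℤ) : 𝓞 ℚ) : ℚ) := by
    intro z
    funext l
    unfold VK.aA
    refine Fin.addCases (fun i => ?_) (fun i => i.elim0) l
    rw [Fin.append_left]
  have e2 : ∀ z : VK.Cv 1 0, VK.aB ω (fun _ : Fin h => ((E.2 : ℤ) : 𝓞 ℚ)) z = fun _ => (((E.2 : ℤ) : 𝓞 ℚ) : ℚ) := by
    intro z
    funext l
    unfold VK.aB
    refine Fin.addCases (fun i => ?_) (fun i => i.elim0) l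
    rw [Fin.append_left]
  have hfin := fin_int (ι := VK.IxM Unit M ν d × Fin 1) H (fun a =>
    ∃ S : Finset (FinitePlace ℚ), ∏ v ∈ S, (OCM.nrm v : ℝ) ≤ Real.exp (c * (Real.log (Real.log H)) ^ 2) ∧
    VK.IntQ (g := 0) (⊥ ⊔ VU.Su S) S ∅ ∅ R ex E0
      (fun t : VK.IxM Unit M δ d' => ((((b (rl t) : ℤ) : 𝓞 ℚ) : 𝓞 ℚ) : ℚ)) E0
      (fun _ => (((E.1 : ℤ) : 𝓞 ℚ) : ℚ)) (fun _ => (((E.2 : ℤ) : 𝓞 ℚ) : ℚ)) (VK.cf ω a))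
  refine Nat.card_le_card_of_injective (fun z => ⟨z.1.2, z.2.1.2, ?_⟩) fun z z' hz => ?_
  · have h3 := z.2.2
    rw [e1, e2] at h3
    exact h3
  · exact Subtype.ext (Prod.ext (Subsingleton.elim _ _) (congrArg Subtype.val hz))

end BI7
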