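import Pool.Agent.Lib.MP_10e784_agB7.T2
import Pool.Agent.Lib.MP_10e784_agL.SE

/-!
# The family of all curves, double covers of elliptic curves
-/

set_option autoImplicit false

namespace BI7

open Finset NumberField BLS MWS

/-- the family of all curves -/
theorem family {h : ℕ} (B : Fin h → ℤ × ℤ) (hB : ∀ l, 4 * (B l).1 ^ 3 + 27 * (B l).2 ^ 2 ≠ 0) (m : ℕ) (hm : 1 ≤ m) :
    ∃ c : ℝ, 0 < c ∧ ∀ (r M w : ℕ) (δ : Fin w → ℕ) (d' : Fin w → Fin h → ℕ) (b : IxS M δ d' → ℤ),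
    Fib B b r → ∃ (c' : ℝ) (ν0 : ℕ), 0 < c' ∧
    ∀ (g s : ℕ) (ν : Fin s → ℕ) (d : Fin s → Fin (h + g) → ℕ) (R : Finset (Fin s)) (ex : Fin s → ℕ) (T : ℕ → ℝ),
    ((∀ l, VK.HasCM ((B l).1 : ℚ) ((B l).2 : ℚ)) ∧ (∀ H : ℕ, T H = Real.exp ((Real.log H) ^ c)) ∨
      g = 0 ∧ m = 2 ∧ (∃ E : ℤ × ℤ, Module.finrank ℤ (VK.Pt (E.1 : ℚ) (E.2 : ℚ)) ≤ 1 ∧ ∀ l, B l = E) ∧
        (∀ H : ℕ, T H = Real.exp (c' * (Real.log (Real.log H)) ^ 2))) →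
    1 ≤ h + g → s + 2 = h + g + r + R.card → (∀ j ∈ R, 1 ≤ ex j ∧ ex j ∣ ν j ∧ ∀ l, ex j ∣ 2 * d j l) →
    (2 ≤ h + g ∨ (∃ j, (ν0 ≤ ν j ∨ M = 0) ∧ (j ∈ R → ¬ (ex j).Coprime m)) ∨
      w = 0 ∧ r = M + 1 ∧ R = ∅ ∧ (∀ j, 1 ≤ ν j) ∧ M + 1 ≤ ∑ j, ν j) → ∃ C : ℝ, ∀ H : ℕ, 1 ≤ H →
    (Nat.card {z : (Fin g → ℤ × ℤ) × (IxS M ν d → ℤ) // Box H z ∧ Pnt ℚ (Fac R (T H)) R ex B b z.1 z.2} : ℝ) ≤
      C * (H : ℝ) ^ (Fintype.card (IxS M ν d) + 5 * g) / T H := by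
  classical
  have h1 : ∃ c : ℝ, 0 < c ∧ ∀ (r M w : ℕ) (δ : Fin w → ℕ) (d' : Fin w → Fin h → ℕ) (b : IxS M δ d' → ℤ),
      Fib B b r → ∃ ν1 : ℕ, (∀ l, VK.HasCM ((B l).1 : ℚ) ((B l).2 : ℚ)) →
      ∀ (g s : ℕ) (ν : Fin s → ℕ) (d : Fin s → Fin (h + g) → ℕ) (R : Finset (Fin s)) (ex : Fin s → ℕ),
      (∀ j ∈ R, 1 ≤ ex j ∧ ex j ∣ ν j ∧ ∀ l, ex j ∣ 2 * d j l) →
      (r + R.card ≤ s ∨ r + R.card ≤ s + 1 ∧ ((∃ j, (ν1 ≤ ν j ∨ M = 0) ∧ (j ∈ R → ¬ (ex j).Coprime m)) ∨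
        (w = 0 ∧ R = ∅ ∧ M ≤ s ∧ (∀ j, 1 ≤ ν j) ∧ M + 1 ≤ ∑ j, ν j))) → ∃ C : ℝ, ∀ H : ℕ, 1 ≤ H →
      (num (ν := ν) (d := d) (Real.exp ((Real.log H) ^ c)) R ex B b H : ℝ) ≤
        C * (H : ℝ) ^ (Fintype.card (IxS M ν d) + 5 * g) * Real.exp (-(Real.log H) ^ c) := by
    by_cases hCM : ∀ l, VK.HasCM ((B l).1 : ℚ) ((B l).2 : ℚ)
    · obtain ⟨c, hc, hh⟩ := family_cm B hB hCM m hm
      refine ⟨c, hc, fun r M w δ d' b hF => ?_⟩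
      obtain ⟨ν1, h1⟩ := hh r M w δ d' b hF
      exact ⟨ν1, fun _ => h1⟩
    · exact ⟨1, one_pos, fun r M w δ d' b hF => ⟨0, fun h => absurd h hCM⟩⟩
  obtain ⟨c, hc, hh⟩ := h1
  refine ⟨c, hc, fun r M w δ d' b hF => ?_⟩
  have h2 : ∃ (c' : ℝ) (ν2 : ℕ), 0 < c' ∧ (1 ≤ h →
      (∃ E : ℤ × ℤ, Module.finrank ℤ (VK.Pt (E.1 : ℚ) (E.2 : ℚ)) ≤ 1 ∧ ∀ l, B l = E) →
      ∀ (s : ℕ) (ν : Fin s → ℕ) (d : Fin s → Fin (h + 0) → ℕ) (R : Finset (Fin s)) (ex : Fin s → ℕ),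
      (∀ j ∈ R, 1 ≤ ex j ∧ ex j ∣ ν j ∧ ∀ l, ex j ∣ 2 * d j l) →
      (r + R.card ≤ s ∨ r + R.card ≤ s + 1 ∧ ((∃ j, (ν2 ≤ ν j ∨ M = 0) ∧ (j ∈ R → 2 ∣ ex j)) ∨
        (w = 0 ∧ R = ∅ ∧ M ≤ s ∧ (∀ j, 1 ≤ ν j) ∧ M + 1 ≤ ∑ j, ν j))) → ∃ C : ℝ, ∀ H : ℕ, 1 ≤ H →
      (num (g := 0) (ν := ν) (d := d) (Real.exp (c' * (Real.log (Real.log H)) ^ 2)) R ex B b H : ℝ) ≤
        C * (H : ℝ) ^ Fintype.card (IxS M ν d) * Real.exp (-(c' * (Real.log (Real.log H)) ^ 2))) := by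
    by_cases hE : 1 ≤ h ∧ ∃ E : ℤ × ℤ, Module.finrank ℤ (VK.Pt (E.1 : ℚ) (E.2 : ℚ)) ≤ 1 ∧ ∀ l, B l = E
    · obtain ⟨h1, E, hE1, hE2⟩ := hE
      obtain ⟨c', ν2, hc', h3⟩ := family_r1 (b := b) E (by
        have h4 := hB ⟨0, h1⟩
        rw [hE2] at h4
        exact h4) hE1 hE2 hF
      exact ⟨c', ν2, hc', fun _ _ => h3⟩
    · exact ⟨1, 0, one_pos, fun h1 h3 => absurd ⟨h1, h3⟩ hE⟩
  obtain ⟨ν1, h1⟩ := hh r M w δ d' b hF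
  obtain ⟨c', ν2, hc', h2⟩ := h2
  refine ⟨c', max ν1 ν2, hc', fun g s ν d R ex T hT hg hs hex hi => ?_⟩
  rcases hT with ⟨hCM, hT⟩ | ⟨rfl, hm2, hE, hT⟩
  · simp only [hT]
    obtain ⟨C, hC⟩ := h1 hCM g s ν d R ex hex (by
      rcases hi with h3 | ⟨j, hj, hjR⟩ | ⟨e1, e2, e3, e4, e5⟩
      · exact Or.inl (by omega)
      · exact Or.inr ⟨by omega, Or.inl ⟨j, hj.imp (fun h => (le_max_left _ _).trans h) id, hjR⟩⟩
      · refine Or.inr ⟨by omega, Or.inr ⟨e1, e3, ?_, e4, e5⟩⟩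
        rw [e3, Finset.card_empty] at hs
        omega)
    refine ⟨C, fun H hH => (hC H hH).trans (le_of_eq ?_)⟩
    rw [Real.exp_neg, div_eq_mul_inv]
  · simp only [hT]
    obtain ⟨C, hC⟩ := h2 (by omega) hE s ν d R ex hex (by
      rcases hi with h3 | ⟨j, hj, hjR⟩ | ⟨e1, e2, e3, e4, e5⟩
      · exact Or.inl (by omega)
      · refine Or.inr ⟨by omega, Or.inl ⟨j, hj.imp (fun h => (le_max_right _ _).trans h) id, fun h => ?_⟩⟩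
        have h4 := hjR h
        rw [hm2, Nat.coprime_comm, Nat.Prime.coprime_iff_not_dvd Nat.prime_two, not_not] at h4
        exact h4
      · refine Or.inr ⟨by omega, Or.inr ⟨e1, e3, ?_, e4, e5⟩⟩
        rw [e3, Finset.card_empty] at hs
        omega)
    refine ⟨C, fun H hH => (hC H hH).trans (le_of_eq ?_)⟩
    rw [Real.exp_neg, div_eq_mul_inv]
    rfl

/-! ## Double covers of elliptic curves -/

/-- `Y` is a point of `ℙ^0` -/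
theorem fib_one {h : ℕ} (B : Fin h → ℤ × ℤ) (b : IxS 0 (Fin.elim0 : Fin 0 → ℕ) (Fin.elim0 : Fin 0 → Fin h → ℕ) → ℤ) :
    Fib B b 1 := by
  intro P _
  refine ⟨fun _ _ => 1, fun u _ hl => ?_⟩
  have hs : Subsingleton (Fin (0 + 1)) := (inferInstance : Subsingleton (Fin 1))
  have h1 := hl 0
  rw [Fin.sum_univ_one, one_mul] at h1
  funext i
  rw [Subsingleton.elim i 0]
  exact h1

/-- the coefficients of a section of `L(2 d O)` -/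
def co {d : ℕ} (a : Ix d → ℤ) : IxS 0 (fun _ : Fin 1 => 0) (fun (_ : Fin 1) (_ : Fin 1) => d) → ℤ := fun t => a (t.2.2 0)

theorem sec_co (K : Type) [Field K] {d : ℕ} (a : Ix d → ℤ) (P : Fin 1 → Option (K × K)) :
    sec K (co a) P (fun _ => 1) 0 = ∑ k, (a k : K) * basK K d (P 0) k := by
  classical
  unfold sec
  have hs : Subsingleton (Fin (0 + 1)) := (inferInstance : Subsingleton (Fin 1))
  have hU : Unique (Mo 0 0) := {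
    default := ⟨fun _ => 0, by simp⟩
    uniq := fun e => Subtype.ext (funext fun i => Subsingleton.elim _ _) }
  refine Fintype.sum_equiv ((Equiv.uniqueProd _ _).trans (Equiv.funUnique (Fin 1) (Ix d))) _ _ fun t => ?_
  have h1 : mo (fun _ : Fin (0 + 1) => (1 : K)) t.1 = 1 := by
    unfold mo
    exact Finset.prod_eq_one fun i _ => one_pow _
  rw [h1, one_mul, Fin.prod_univ_one]
  rfl

theorem card_co (d : ℕ) (hd : 1 ≤ d) :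
    Fintype.card (IxS 0 (fun _ : Fin 1 => 0) (fun (_ : Fin 1) (_ : Fin 1) => d)) = 2 * d := by
  classical
  have hs : Subsingleton (Fin (0 + 1)) := (inferInstance : Subsingleton (Fin 1))
  have hU : Unique (Mo 0 0) := {
    default := ⟨fun _ => 0, by simp⟩
    uniq := fun e => Subtype.ext (funext fun i => Subsingleton.elim _ _) }
  have h1 : Fintype.card (IxS 0 (fun _ : Fin 1 => 0) (fun (_ : Fin 1) (_ : Fin 1) => d)) = Fintype.card (Ix d) :=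
    Fintype.card_congr ((Equiv.uniqueSigma _).trans ((Equiv.uniqueProd _ _).trans (Equiv.funUnique (Fin 1) (Ix d))))
  rw [h1, Fintype.card_sum, Fintype.card_fin, Fintype.card_fin]
  omega

end BI7
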