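import Pool.Agent.Lib.MP_10e784_agB7.T3

/-!
# Double covers of elliptic curves: the local points
-/

set_option autoImplicit false

namespace BI7

open Finset NumberField BLS MWS

theorem fin_box {g : ℕ} {τ : Type} [Fintype τ] (H : ℕ) (Q : (Fin g → ℤ × ℤ) × (τ → ℤ) → Prop) :
    Finite {z : (Fin g → ℤ × ℤ) × (τ → ℤ) // Box H z ∧ Q z} := by
  let f : {z : (Fin g → ℤ × ℤ) × (τ → ℤ) // Box H z ∧ Q z} →
      (Fin g → (Icc (-(H : ℤ) ^ 2) ((H : ℤ) ^ 2) : Finset ℤ) ×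
        (Icc (-(H : ℤ) ^ 3) ((H : ℤ) ^ 3) : Finset ℤ)) × (τ → (Icc (-(H : ℤ)) H : Finset ℤ)) :=
    fun z => (fun l => (⟨(z.1.1 l).1, mem_Icc.2 (abs_le.1 (z.2.1.1 l).2.1)⟩,
      ⟨(z.1.1 l).2, mem_Icc.2 (abs_le.1 (z.2.1.1 l).2.2)⟩),
      fun i => ⟨z.1.2 i, mem_Icc.2 (abs_le.1 (z.2.1.2 i))⟩)
  refine Finite.of_injective f fun a b hab => ?_
  have h1 : a.1.1 = b.1.1 := by
    funext l
    exact Prod.ext (congrArg (fun w => ((w.1 l).1 : ℤ)) hab) (congrArg (fun w => ((w.1 l).2 : ℤ)) hab)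
  have h2 : a.1.2 = b.1.2 := funext fun i => congrArg (fun w => (w.2 i : ℤ)) hab
  exact Subtype.ext (Prod.ext h1 h2)

theorem co_inj {d : ℕ} {a b : Ix d → ℤ} (h : co a = co b) : a = b := by
  funext k
  exact congrFun h ⟨0, (⟨fun _ => 0, by simp⟩, fun _ => k)⟩

/-- a point of the double cover of the fixed curve -/
theorem sol_fix (K : Type) [Field K] [CharZero K] {E : ℤ × ℤ} {d : ℕ} {a : Ix d → ℤ} {δ : Fin 0 → ℕ} {d' : Fin 0 → Fin 1 → ℕ}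
    (b : IxS 0 δ d' → ℤ) (x : Fin 0 → ℤ × ℤ) (h : Sol K E.1 E.2 d a) :
    Pnt K (g := 0) (d := fun (_ : Fin 1) (_ : Fin (1 + 0)) => d) {1} Finset.univ (fun _ => 2) (fun _ : Fin 1 => E) b x
      (co a) := by
  obtain ⟨P, hP, t, ht⟩ := h
  refine ⟨1, rfl, fun _ => P, fun _ => 1, fun l => ?_, fun h0 => one_ne_zero (congrFun h0 0), fun k => k.elim0,
    fun j hj => absurd (Finset.mem_univ j) hj, fun j _ => ⟨t, ?_⟩⟩
  · refine Fin.addCases (fun i => ?_) (fun i => i.elim0) l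
    rw [Fin.append_left]
    exact hP
  · rw [Subsingleton.elim j 0, Pi.one_apply, Int.cast_one, one_mul, sq]
    exact ht.symm.trans (sec_co K a (fun _ => P)).symm

/-- a point of the double cover of the curve of the family -/
theorem sol_var (K : Type) [Field K] [CharZero K] {E : ℤ × ℤ} {d : ℕ} {a : Ix d → ℤ} {δ : Fin 0 → ℕ} {d' : Fin 0 → Fin 0 → ℕ}
    (b : IxS 0 δ d' → ℤ) (x : Fin 0 → ℤ × ℤ) (h : Sol K E.1 E.2 d a) :
    Pnt K (g := 1) (d := fun (_ : Fin 1) (_ : Fin (0 + 1)) => d) {1} Finset.univ (fun _ => 2) x b (fun _ : Fin 1 => E)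
      (co a) := by
  obtain ⟨P, hP, t, ht⟩ := h
  refine ⟨1, rfl, fun _ => P, fun _ => 1, fun l => ?_, fun h0 => one_ne_zero (congrFun h0 0), fun k => k.elim0,
    fun j hj => absurd (Finset.mem_univ j) hj, fun j _ => ⟨t, ?_⟩⟩
  · refine Fin.addCases (fun i => i.elim0) (fun i => ?_) l
    rw [Fin.append_right]
    exact hP
  · rw [Subsingleton.elim j 0, Pi.one_apply, Int.cast_one, one_mul, sq]
    exact ht.symm.trans (sec_co K a (fun _ => P)).symm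

/-- a positive proportion of the double covers has points over all completions -/
theorem loc_pnt {h g : ℕ} (hhg : h + g = 1) (B : Fin h → ℤ × ℤ) (hB : ∀ l, 4 * (B l).1 ^ 3 + 27 * (B l).2 ^ 2 ≠ 0)
    {δ : Fin 0 → ℕ} {d' : Fin 0 → Fin h → ℕ} (b : IxS 0 δ d' → ℤ) (ν : Fin 1 → ℕ) (d : Fin 1 → Fin (h + g) → ℕ)
    (R : Finset (Fin 1)) (ex : Fin 1 → ℕ) (hR : ∀ j, j ∈ R ∧ ex j = 2 ∧ ν j = 0 ∧ ∀ l, 2 ≤ d j l) :
    ∃ (η : ℝ) (H0 : ℕ), 0 < η ∧ ∀ H : ℕ, H0 ≤ H → η * (H : ℝ) ^ (Fintype.card (IxS 0 ν d) + 5 * g) ≤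
      (Nat.card {z : (Fin g → ℤ × ℤ) × (IxS 0 ν d → ℤ) // Box H z ∧ Pnt ℝ {1} R ex B b z.1 z.2 ∧
        ∀ (p : ℕ) [Fact p.Prime], Pnt ℚ_[p] {1} R ex B b z.1 z.2} : ℝ) := by
  obtain rfl : R = Finset.univ := Finset.eq_univ_iff_forall.2 fun j => (hR j).1
  obtain rfl : ex = fun _ => 2 := funext fun j => (hR j).2.1
  obtain rfl : ν = fun _ => 0 := funext fun j => (hR j).2.2.1
  obtain ⟨rfl, rfl⟩ | ⟨rfl, rfl⟩ : (h = 1 ∧ g = 0) ∨ (h = 0 ∧ g = 1) := by omega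
  · obtain ⟨e, rfl⟩ : ∃ e : ℕ, d = fun _ _ => e := by
      have hs : Subsingleton (Fin (1 + 0)) := (inferInstance : Subsingleton (Fin 1))
      refine ⟨d 0 0, funext fun j => funext fun l => ?_⟩
      rw [Subsingleton.elim j 0, Subsingleton.elim l 0]
    obtain ⟨E, rfl⟩ : ∃ E : ℤ × ℤ, B = fun _ => E := ⟨B 0, funext fun l => by rw [Subsingleton.elim l 0]⟩
    have he : 2 ≤ e := (hR 0).2.2.2 0
    obtain ⟨η, H0, hη, h1⟩ := loc_fix e he E.1 E.2 (hB 0)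
    refine ⟨η, H0, hη, fun H hH => ?_⟩
    have h2 : Fintype.card (IxS 0 (fun _ : Fin 1 => 0) (fun (_ : Fin 1) (_ : Fin (1 + 0)) => e)) + 5 * 0 = 2 * e :=
      card_co e (by omega)
    rw [h2]
    refine (h1 H hH).trans (Nat.cast_le.2 ?_)
    have := fin_box (g := 0) H (fun z : (Fin 0 → ℤ × ℤ) × (IxS 0 (fun _ : Fin 1 => 0)
      (fun (_ : Fin 1) (_ : Fin (1 + 0)) => e) → ℤ) => Pnt ℝ {1} Finset.univ (fun _ => 2) (fun _ : Fin 1 => E) b z.1 z.2 ∧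
        ∀ (p : ℕ) [Fact p.Prime], Pnt ℚ_[p] {1} Finset.univ (fun _ => 2) (fun _ : Fin 1 => E) b z.1 z.2)
    refine Nat.card_le_card_of_injective (fun a => ⟨(Fin.elim0, co a.1), ⟨fun l => l.elim0, fun k => a.2.1 _⟩,
      sol_fix ℝ b _ a.2.2.1, fun p _ => sol_fix ℚ_[p] b _ (a.2.2.2 p)⟩) fun a a' h => ?_
    exact Subtype.ext (co_inj (congrArg (fun z => z.1.2) h))
  · obtain ⟨e, rfl⟩ : ∃ e : ℕ, d = fun _ _ => e := by
      have hs : Subsingleton (Fin (0 + 1)) := (inferInstance : Subsingleton (Fin 1))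
      refine ⟨d 0 0, funext fun j => funext fun l => ?_⟩
      rw [Subsingleton.elim j 0, Subsingleton.elim l 0]
    have he : 2 ≤ e := (hR 0).2.2.2 0
    obtain ⟨η, H0, hη, h1⟩ := loc_all e he
    refine ⟨η, H0, hη, fun H hH => ?_⟩
    have h2 : Fintype.card (IxS 0 (fun _ : Fin 1 => 0) (fun (_ : Fin 1) (_ : Fin (0 + 1)) => e)) + 5 * 1 = 2 * e + 5 :=
      congrArg (· + 5 * 1) (card_co e (by omega))
    rw [h2]
    refine (h1 H hH).trans (Nat.cast_le.2 ?_)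
    have := fin_box (g := 1) H (fun z : (Fin 1 → ℤ × ℤ) × (IxS 0 (fun _ : Fin 1 => 0)
      (fun (_ : Fin 1) (_ : Fin (0 + 1)) => e) → ℤ) => Pnt ℝ {1} Finset.univ (fun _ => 2) B b z.1 z.2 ∧
        ∀ (p : ℕ) [Fact p.Prime], Pnt ℚ_[p] {1} Finset.univ (fun _ => 2) B b z.1 z.2)
    refine Nat.card_le_card_of_injective (fun a => ⟨(fun _ => a.1.1, co a.1.2),
      ⟨fun l => ⟨a.2.1, a.2.2.1, a.2.2.2.1⟩, fun k => a.2.2.2.2.1 _⟩,
      sol_var ℝ b _ a.2.2.2.2.2.1, fun p _ => sol_var ℚ_[p] b _ (a.2.2.2.2.2.2 p)⟩) fun a a' h => ?_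
    exact Subtype.ext (Prod.ext (congrFun (congrArg (fun z => z.1.1) h) 0) (co_inj (congrArg (fun z => z.1.2) h)))

end BI7
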