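import Pool.Agent.Lib.MP_10e784_agB7.T4

/-!
# The failure of the Hasse principle
-/

set_option autoImplicit false

namespace BI7

open Finset BLS

/-- a density argument -/
private theorem T5_diff {α : Type} (P Q R : α → Prop) [Finite {a // P a ∧ Q a}] [Finite {a // P a ∧ R a}] :
    (Nat.card {a // P a ∧ Q a} : ℝ) ≤ Nat.card {a // P a ∧ R a} + Nat.card {a // P a ∧ Q a ∧ ¬ R a} := by
  classical
  have hf : Finite {a // P a ∧ Q a ∧ ¬ R a} :=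
    Finite.of_injective (fun a => (⟨a.1, a.2.1, a.2.2.1⟩ : {a // P a ∧ Q a})) fun a b h =>
      Subtype.ext (congrArg (fun z => z.1) h)
  let f : {a // P a ∧ Q a} → {a // P a ∧ R a} ⊕ {a // P a ∧ Q a ∧ ¬ R a} := fun a =>
    if h : R a.1 then .inl ⟨a.1, a.2.1, h⟩ else .inr ⟨a.1, a.2.1, a.2.2, h⟩
  have hinj : Function.Injective f := by
    intro a b hab
    by_cases ha : R a.1 <;> by_cases hb : R b.1
    · have h1 := hab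
      simp only [f, dif_pos ha, dif_pos hb, Sum.inl.injEq, Subtype.mk.injEq] at h1
      exact Subtype.ext h1
    · have h1 := hab
      simp only [f, dif_pos ha, dif_neg hb, reduceCtorEq] at h1
    · have h1 := hab
      simp only [f, dif_neg ha, dif_pos hb, reduceCtorEq] at h1
    · have h1 := hab
      simp only [f, dif_neg ha, dif_neg hb, Sum.inr.injEq, Subtype.mk.injEq] at h1
      exact Subtype.ext h1
  have h1 := Nat.card_le_card_of_injective f hinj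
  rw [Nat.card_sum] at h1
  exact_mod_cast h1

theorem loglog_small {c C ε : ℝ} (hc : 0 < c) (hε : 0 < ε) : ∃ H0 : ℕ, ∀ H : ℕ, H0 ≤ H →
    C * Real.exp (-(c * (Real.log (Real.log H)) ^ 2)) ≤ ε := by
  have h1 : Filter.Tendsto (fun H : ℕ => C * Real.exp (-(c * (Real.log (Real.log (H : ℝ))) ^ 2)))
      Filter.atTop (nhds (C * 0)) := by
    refine Filter.Tendsto.const_mul C (Real.tendsto_exp_atBot.comp ?_)
    refine Filter.tendsto_neg_atTop_atBot.comp ?_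
    refine Filter.Tendsto.const_mul_atTop hc ?_
    exact (Filter.tendsto_pow_atTop two_ne_zero).comp
      (Real.tendsto_log_atTop.comp (Real.tendsto_log_atTop.comp tendsto_natCast_atTop_atTop))
  rw [mul_zero] at h1
  have h2 := h1.eventually (gt_mem_nhds hε)
  obtain ⟨H0, h3⟩ := Filter.eventually_atTop.1 h2
  exact ⟨H0, fun H hH => (h3 H hH).le⟩

/-- soluble everywhere locally in a positive proportion, with a rational point in a negligible one -/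
theorem hp_of {α : Type} {N : ℕ} {η : ℝ} {H1 : ℕ} {C : ℝ} {ε : ℕ → ℝ} (hη : 0 < η)
    (hε : ∀ δ : ℝ, 0 < δ → ∃ H0 : ℕ, ∀ H : ℕ, H0 ≤ H → C * ε H ≤ δ) (P : ℕ → α → Prop) (Q : α → Prop) (R : ℕ → α → Prop)
    (hf : ∀ (H : ℕ) (Q' : α → Prop), Finite {a // P H a ∧ Q' a})
    (h1 : ∀ H : ℕ, H1 ≤ H → η * (H : ℝ) ^ N ≤ (Nat.card {a // P H a ∧ Q a} : ℝ))
    (h2 : ∀ H : ℕ, 1 ≤ H → (Nat.card {a // P H a ∧ R H a} : ℝ) ≤ C * (H : ℝ) ^ N * ε H) :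
    ∃ (η : ℝ) (H0 : ℕ), 0 < η ∧ ∀ H : ℕ, H0 ≤ H → η * (H : ℝ) ^ N ≤ (Nat.card {a // P H a ∧ Q a ∧ ¬ R H a} : ℝ) := by
  obtain ⟨H2, h3⟩ := hε (η / 2) (half_pos hη)
  refine ⟨η / 2, max H1 (max H2 1), half_pos hη, fun H hH => ?_⟩
  have a1 : H1 ≤ H := (le_max_left _ _).trans hH
  have a2 : H2 ≤ H := (le_max_left _ _).trans ((le_max_right _ _).trans hH)
  have a3 : 1 ≤ H := (le_max_right _ _).trans ((le_max_right _ _).trans hH)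
  have := hf H
  have h4 := T5_diff (P H) Q (R H)
  have h5 := h1 H a1
  have h6 := h2 H a3
  have h7 := h3 H a2
  have h8 : C * (H : ℝ) ^ N * ε H ≤ η / 2 * (H : ℝ) ^ N := by
    calc C * (H : ℝ) ^ N * ε H = C * ε H * (H : ℝ) ^ N := by ring
      _ ≤ η / 2 * (H : ℝ) ^ N := mul_le_mul_of_nonneg_right h7 (by positivity)
  linarith

/-- the main theorem -/
theorem main (h : ℕ) (B : Fin h → ℤ × ℤ) (hB : ∀ l, 4 * (B l).1 ^ 3 + 27 * (B l).2 ^ 2 ≠ 0) (m : ℕ) (hm : 1 ≤ m) :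
    ∃ c : ℝ, 0 < c ∧ ∀ (r M w : ℕ) (δ : Fin w → ℕ) (d' : Fin w → Fin h → ℕ) (b : IxS M δ d' → ℤ),
    Fib B b r → ∃ (c' : ℝ) (ν0 : ℕ), 0 < c' ∧
    ∀ (g s : ℕ) (ν : Fin s → ℕ) (d : Fin s → Fin (h + g) → ℕ) (R : Finset (Fin s)) (ex : Fin s → ℕ) (T : ℕ → ℝ),
    ((∀ l, VK.HasCM ((B l).1 : ℚ) ((B l).2 : ℚ)) ∧ (∀ H : ℕ, T H = Real.exp ((Real.log H) ^ c)) ∨
      g = 0 ∧ m = 2 ∧ (∃ E : ℤ × ℤ, Module.finrank ℤ (VK.Pt (E.1 : ℚ) (E.2 : ℚ)) ≤ 1 ∧ ∀ l, B l = E) ∧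
        (∀ H : ℕ, T H = Real.exp (c' * (Real.log (Real.log H)) ^ 2))) →
    1 ≤ h + g → s + 2 = h + g + r + R.card → (∀ j ∈ R, 1 ≤ ex j ∧ ex j ∣ ν j ∧ ∀ l, ex j ∣ 2 * d j l) →
    (2 ≤ h + g ∨ (∃ j, (ν0 ≤ ν j ∨ M = 0) ∧ (j ∈ R → ¬ (ex j).Coprime m)) ∨
      w = 0 ∧ r = M + 1 ∧ R = ∅ ∧ (∀ j, 1 ≤ ν j) ∧ M + 1 ≤ ∑ j, ν j) →
    (∃ C : ℝ, ∀ H : ℕ, 1 ≤ H →
      (Nat.card {z : (Fin g → ℤ × ℤ) × (IxS M ν d → ℤ) // Box H z ∧ Pnt ℚ (Fac R (T H)) R ex B b z.1 z.2} : ℝ) ≤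
        C * (H : ℝ) ^ (Fintype.card (IxS M ν d) + 5 * g) / T H) ∧
    (h + g = 1 → M = 0 → w = 0 → s = 1 → (∀ j, j ∈ R ∧ ex j = 2 ∧ ν j = 0 ∧ ∀ l, 2 ≤ d j l) →
      ∃ (η : ℝ) (H0 : ℕ), 0 < η ∧ ∀ H : ℕ, H0 ≤ H → η * (H : ℝ) ^ (Fintype.card (IxS M ν d) + 5 * g) ≤
        (Nat.card {z : (Fin g → ℤ × ℤ) × (IxS M ν d → ℤ) // Box H z ∧ (Pnt ℝ {1} R ex B b z.1 z.2 ∧
          ∀ (p : ℕ) [Fact p.Prime], Pnt ℚ_[p] {1} R ex B b z.1 z.2) ∧ ¬ Pnt ℚ (Fac R (T H)) R ex B b z.1 z.2} : ℝ)) := by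
  obtain ⟨c, hc, h1⟩ := family B hB m hm
  refine ⟨c, hc, fun r M w δ d' b hF => ?_⟩
  obtain ⟨c', ν0, hc', h2⟩ := h1 r M w δ d' b hF
  refine ⟨c', ν0, hc', fun g s ν d R ex T hT hhg hs hex hi => ?_⟩
  obtain ⟨C, hC⟩ := h2 g s ν d R ex T hT hhg hs hex hi
  refine ⟨⟨C, hC⟩, fun e1 e2 e3 e4 hR => ?_⟩
  subst e2 e3 e4
  obtain ⟨η, H1, hη, h3⟩ := loc_pnt e1 B hB b ν d R ex hR
  refine hp_of hη (ε := fun H => (T H)⁻¹) (C := C) (fun δ hδ => ?_) (fun H z => Box H z) _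
    (fun H z => Pnt ℚ (Fac R (T H)) R ex B b z.1 z.2) (fun H Q' => fin_box H Q') h3 hC
  rcases hT with ⟨-, hT⟩ | ⟨-, -, -, hT⟩
  · obtain ⟨H0, h4⟩ := exp_small (C := C) hc hδ
    exact ⟨H0, fun H hH => by
      show C * (T H)⁻¹ ≤ δ
      rw [hT, ← Real.exp_neg]
      exact h4 H hH⟩
  · obtain ⟨H0, h4⟩ := loglog_small (C := C) hc' hδ
    exact ⟨H0, fun H hH => by
      show C * (T H)⁻¹ ≤ δ
      rw [hT, ← Real.exp_neg]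
      exact h4 H hH⟩

end BI7
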