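import Pool.Agent.Lib.MP_10e784_agB7.T5

/-!
# The double covers of a fixed elliptic curve and of all elliptic curves: the theorem spelled out
-/

set_option autoImplicit false

namespace BI7

open Finset NumberField BLS MWS

theorem Tw.mono {E : ℤ × ℤ} {d : ℕ} {T T' : ℝ} {a : Ix d → ℤ} (hT : T ≤ T') (h : Tw E T a) : Tw E T' a := by
  obtain ⟨γ, h1, h2, h3⟩ := h
  exact ⟨γ, h1, h2.trans hT, h3⟩

/-- the twists of the double covers of a fixed curve -/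
theorem twist_fix (E : ℤ × ℤ) (T : ℝ) (d H : ℕ)
    (b : IxS 0 (Fin.elim0 : Fin 0 → ℕ) (Fin.elim0 : Fin 0 → Fin 1 → ℕ) → ℤ) :
    Nat.card {a : Ix d → ℤ // (∀ k, |a k| ≤ (H : ℤ)) ∧ Tw E T a} ≤
    Nat.card {z : (Fin 0 → ℤ × ℤ) × (IxS 0 (fun _ : Fin 1 => 0) (fun (_ : Fin 1) (_ : Fin (1 + 0)) => d) → ℤ) //
      Box H z ∧ Pnt ℚ (Fac Finset.univ T) Finset.univ (fun _ => 2) (fun _ : Fin 1 => E) b z.1 z.2} := by
  have := fin_box (g := 0) H (fun z : (Fin 0 → ℤ × ℤ) × (IxS 0 (fun _ : Fin 1 => 0)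
    (fun (_ : Fin 1) (_ : Fin (1 + 0)) => d) → ℤ) =>
      Pnt ℚ (Fac Finset.univ T) Finset.univ (fun _ => 2) (fun _ : Fin 1 => E) b z.1 z.2)
  refine Nat.card_le_card_of_injective (fun a => ⟨(Fin.elim0, co a.1), ⟨fun l => l.elim0, fun k => a.2.1 _⟩, ?_⟩)
    fun a a' h => ?_
  · obtain ⟨a, ha, γ, hγ, hγT, P, t, hP, ht⟩ := a
    refine ⟨fun _ => γ, ⟨fun _ => hγ, by rw [Fin.prod_univ_one]; exact hγT⟩, fun _ => P, fun _ => 1, fun l => ?_,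
      fun h0 => one_ne_zero (congrFun h0 0), fun k => k.elim0,
      fun j hj => absurd (Finset.mem_univ j) hj, fun j _ => ⟨t, ?_⟩⟩
    · refine Fin.addCases (fun i => ?_) (fun i => i.elim0) l
      rw [Fin.append_left]
      exact hP
    · rw [Subsingleton.elim j 0]
      exact ht.trans (sec_co ℚ a (fun _ => P)).symm
  · exact Subtype.ext (co_inj (congrArg (fun z => z.1.2) h))

/-- the twists of the double covers of all curves -/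
theorem twist_var (T : ℝ) (d H : ℕ)
    (b : IxS 0 (Fin.elim0 : Fin 0 → ℕ) (Fin.elim0 : Fin 0 → Fin 0 → ℕ) → ℤ) :
    Nat.card {a : (ℤ × ℤ) × (Ix d → ℤ) // (4 * a.1.1 ^ 3 + 27 * a.1.2 ^ 2 ≠ 0 ∧ |a.1.1| ≤ (H : ℤ) ^ 2 ∧
      |a.1.2| ≤ (H : ℤ) ^ 3 ∧ ∀ k, |a.2 k| ≤ (H : ℤ)) ∧ Tw a.1 T a.2} ≤
    Nat.card {z : (Fin 1 → ℤ × ℤ) × (IxS 0 (fun _ : Fin 1 => 0) (fun (_ : Fin 1) (_ : Fin (0 + 1)) => d) → ℤ) //
      Box H z ∧ Pnt ℚ (Fac Finset.univ T) Finset.univ (fun _ => 2) (Fin.elim0 : Fin 0 → ℤ × ℤ) b z.1 z.2} := by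
  have := fin_box (g := 1) H (fun z : (Fin 1 → ℤ × ℤ) × (IxS 0 (fun _ : Fin 1 => 0)
    (fun (_ : Fin 1) (_ : Fin (0 + 1)) => d) → ℤ) =>
      Pnt ℚ (Fac Finset.univ T) Finset.univ (fun _ => 2) (Fin.elim0 : Fin 0 → ℤ × ℤ) b z.1 z.2)
  refine Nat.card_le_card_of_injective (fun a => ⟨(fun _ => a.1.1, co a.1.2),
    ⟨fun l => ⟨a.2.1.1, a.2.1.2.1, a.2.1.2.2.1⟩, fun k => a.2.1.2.2.2 _⟩, ?_⟩) fun a a' h => ?_
  · obtain ⟨a, ha, γ, hγ, hγT, P, t, hP, ht⟩ := a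
    refine ⟨fun _ => γ, ⟨fun _ => hγ, by rw [Fin.prod_univ_one]; exact hγT⟩, fun _ => P, fun _ => 1, fun l => ?_,
      fun h0 => one_ne_zero (congrFun h0 0), fun k => k.elim0,
      fun j hj => absurd (Finset.mem_univ j) hj, fun j _ => ⟨t, ?_⟩⟩
    · refine Fin.addCases (fun i => i.elim0) (fun i => ?_) l
      rw [Fin.append_right]
      exact hP
    · rw [Subsingleton.elim j 0]
      exact ht.trans (sec_co ℚ a.2 (fun _ => P)).symm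
  · exact Subtype.ext (Prod.ext (congrFun (congrArg (fun z => z.1.1) h) 0) (co_inj (congrArg (fun z => z.1.2) h)))

/-- comparison of the two bounds -/
theorem pow_ge {c : ℝ} (hc : 0 < c) : ∃ c' : ℝ, 0 < c' ∧ ∀ H : ℕ, 1 ≤ H →
    c' * (Real.log (Real.log H)) ^ 2 ≤ (Real.log H) ^ c := by
  have hl2 : (0 : ℝ) < Real.log (2 : ℕ) := Real.log_pos (by norm_num)
  have hp : (0 : ℝ) < (Real.log (2 : ℕ)) ^ c := Real.rpow_pos_of_pos hl2 c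
  obtain ⟨q, hq⟩ : ∃ q : ℝ, q = (Real.log (Real.log (2 : ℕ))) ^ 2 := ⟨_, rfl⟩
  have hq0 : 0 ≤ q := by rw [hq]; exact sq_nonneg _
  refine ⟨min (c ^ 2 / 2) ((Real.log (2 : ℕ)) ^ c / (1 + q)), lt_min (by positivity) (by positivity), fun H hH => ?_⟩
  rcases le_total 1 (Real.log H) with h1 | h1
  · have h2 : (c * Real.log (Real.log H)) ^ 2 / 2 ≤ (Real.log H) ^ c := by
      have h3 : 0 ≤ Real.log (Real.log H) := Real.log_nonneg h1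
      have h4 : (Real.log H) ^ c = Real.exp (c * Real.log (Real.log H)) := by
        rw [Real.rpow_def_of_pos (by linarith), mul_comm]
      rw [h4]
      have h5 := Real.quadratic_le_exp_of_nonneg (x := c * Real.log (Real.log H)) (by positivity)
      have h6 : 0 ≤ c * Real.log (Real.log H) := by positivity
      linarith
    calc min (c ^ 2 / 2) ((Real.log (2 : ℕ)) ^ c / (1 + q)) * (Real.log (Real.log H)) ^ 2 ≤
          c ^ 2 / 2 * (Real.log (Real.log H)) ^ 2 := mul_le_mul_of_nonneg_right (min_le_left _ _) (sq_nonneg _)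
      _ = (c * Real.log (Real.log H)) ^ 2 / 2 := by ring
      _ ≤ _ := h2
  · have hH2 : H ≤ 2 := by
      by_contra h2
      have h3 : (3 : ℝ) ≤ H := by exact_mod_cast (by omega : 3 ≤ H)
      have h4 : Real.exp 1 < 3 := lt_trans Real.exp_one_lt_d9 (by norm_num)
      have h5 : 1 < Real.log H := (Real.lt_log_iff_exp_lt (by linarith)).2 (h4.trans_le h3)
      linarith
    interval_cases H
    · rw [Nat.cast_one, Real.log_one, Real.log_zero, zero_pow two_ne_zero, mul_zero]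
      exact Real.rpow_nonneg le_rfl c
    · rw [← hq]
      calc min (c ^ 2 / 2) ((Real.log (2 : ℕ)) ^ c / (1 + q)) * q ≤ (Real.log (2 : ℕ)) ^ c / (1 + q) * q :=
            mul_le_mul_of_nonneg_right (min_le_right _ _) hq0
        _ = (Real.log (2 : ℕ)) ^ c * (q / (1 + q)) := by ring
        _ ≤ (Real.log (2 : ℕ)) ^ c * 1 := mul_le_mul_of_nonneg_left ((div_le_one (by positivity)).2 (by linarith)) hp.le
        _ = _ := mul_one _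

/-- the double covers of a fixed curve of rank at most one or with complex multiplication -/
theorem dc_fix (E : ℤ × ℤ) (hE : 4 * E.1 ^ 3 + 27 * E.2 ^ 2 ≠ 0)
    (h : Module.finrank ℤ (VK.Pt (E.1 : ℚ) (E.2 : ℚ)) ≤ 1 ∨ VK.HasCM (E.1 : ℚ) (E.2 : ℚ)) :
    ∃ c : ℝ, 0 < c ∧ ∀ d : ℕ, 1 ≤ d → ∃ C : ℝ, ∀ H : ℕ, 1 ≤ H →
      (Nat.card {a : Ix d → ℤ // (∀ k, |a k| ≤ (H : ℤ)) ∧ Tw E (Real.exp (c * (Real.log (Real.log H)) ^ 2)) a} : ℝ) ≤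
        C * (H : ℝ) ^ (2 * d) * Real.exp (-(c * (Real.log (Real.log H)) ^ 2)) := by
  obtain ⟨c, hc, h1⟩ := family (fun _ : Fin 1 => E) (fun _ => hE) 2 (by omega)
  rcases h with h | h
  · obtain ⟨c', ν0, hc', h2⟩ := h1 1 0 0 Fin.elim0 Fin.elim0 (fun t => t.1.elim0) (fib_one _ _)
    refine ⟨c', hc', fun d hd => ?_⟩
    obtain ⟨C, hC⟩ := h2 0 1 (fun _ => 0) (fun _ _ => d) Finset.univ (fun _ => 2)
      (fun H => Real.exp (c' * (Real.log (Real.log H)) ^ 2))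
      (Or.inr ⟨rfl, rfl, ⟨E, h, fun _ => rfl⟩, fun _ => rfl⟩) (by omega) (by simp)
      (fun j _ => ⟨by omega, dvd_zero _, fun l => dvd_mul_right 2 d⟩)
      (Or.inr (Or.inl ⟨0, Or.inr rfl, fun _ => by decide⟩))
    refine ⟨C, fun H hH => ?_⟩
    have h3 := hC H hH
    have h4 : Fintype.card (IxS 0 (fun _ : Fin 1 => 0) (fun (_ : Fin 1) (_ : Fin (1 + 0)) => d)) + 5 * 0 = 2 * d :=
      card_co d hd
    rw [h4] at h3
    rw [Real.exp_neg, ← div_eq_mul_inv]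
    exact le_trans (Nat.cast_le.2 (twist_fix E _ d H _)) h3
  · obtain ⟨c', ν0, hc', h2⟩ := h1 1 0 0 Fin.elim0 Fin.elim0 (fun t => t.1.elim0) (fib_one _ _)
    obtain ⟨c₁, hc₁, herr⟩ := pow_ge hc
    refine ⟨c₁, hc₁, fun d hd => ?_⟩
    obtain ⟨C, hC⟩ := h2 0 1 (fun _ => 0) (fun _ _ => d) Finset.univ (fun _ => 2) (fun H => Real.exp ((Real.log H) ^ c))
      (Or.inl ⟨fun _ => h, fun _ => rfl⟩) (by omega) (by simp)
      (fun j _ => ⟨by omega, dvd_zero _, fun l => dvd_mul_right 2 d⟩)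
      (Or.inr (Or.inl ⟨0, Or.inr rfl, fun _ => by decide⟩))
    refine ⟨|C|, fun H hH => ?_⟩
    have h3 := hC H hH
    have h4 : Fintype.card (IxS 0 (fun _ : Fin 1 => 0) (fun (_ : Fin 1) (_ : Fin (1 + 0)) => d)) + 5 * 0 = 2 * d :=
      card_co d hd
    rw [h4] at h3
    have h5 : Real.exp (c₁ * (Real.log (Real.log H)) ^ 2) ≤ Real.exp ((Real.log H) ^ c) := Real.exp_le_exp.2 (herr H hH)
    have := fin_int (ι := Ix d) H (fun a => Tw E (Real.exp ((Real.log H) ^ c)) a)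
    have h6 : Nat.card {a : Ix d → ℤ // (∀ k, |a k| ≤ (H : ℤ)) ∧ Tw E (Real.exp (c₁ * (Real.log (Real.log H)) ^ 2)) a} ≤
        Nat.card {a : Ix d → ℤ // (∀ k, |a k| ≤ (H : ℤ)) ∧ Tw E (Real.exp ((Real.log H) ^ c)) a} :=
      Nat.card_le_card_of_injective (fun a => ⟨a.1, a.2.1, a.2.2.mono h5⟩) fun a b hab =>
        Subtype.ext (congrArg (fun z => z.1) hab)
    refine (le_trans (Nat.cast_le.2 (h6.trans (twist_fix E _ d H _))) h3).trans ?_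
    have h7 : (0 : ℝ) ≤ (H : ℝ) ^ (2 * d) := by positivity
    have h8 : Real.exp (-(Real.log H) ^ c) ≤ Real.exp (-(c₁ * (Real.log (Real.log H)) ^ 2)) :=
      Real.exp_le_exp.2 (neg_le_neg (herr H hH))
    calc C * (H : ℝ) ^ (2 * d) / Real.exp ((Real.log H) ^ c) = C * (H : ℝ) ^ (2 * d) * Real.exp (-(Real.log H) ^ c) := by
          rw [Real.exp_neg, div_eq_mul_inv]
      _ ≤ |C| * (H : ℝ) ^ (2 * d) * Real.exp (-(Real.log H) ^ c) :=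
          mul_le_mul_of_nonneg_right (mul_le_mul_of_nonneg_right (le_abs_self C) h7) (Real.exp_pos _).le
      _ ≤ |C| * (H : ℝ) ^ (2 * d) * Real.exp (-(c₁ * (Real.log (Real.log H)) ^ 2)) :=
          mul_le_mul_of_nonneg_left h8 (mul_nonneg (abs_nonneg C) h7)

/-- the double covers of all elliptic curves -/
theorem dc_var : ∃ c : ℝ, 0 < c ∧ ∀ d : ℕ, 1 ≤ d → ∃ C : ℝ, ∀ H : ℕ, 1 ≤ H →
      (Nat.card {a : (ℤ × ℤ) × (Ix d → ℤ) // (4 * a.1.1 ^ 3 + 27 * a.1.2 ^ 2 ≠ 0 ∧ |a.1.1| ≤ (H : ℤ) ^ 2 ∧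
        |a.1.2| ≤ (H : ℤ) ^ 3 ∧ ∀ k, |a.2 k| ≤ (H : ℤ)) ∧ Tw a.1 (Real.exp ((Real.log H) ^ c)) a.2} : ℝ) ≤
        C * (H : ℝ) ^ (2 * d + 5) * Real.exp (-(Real.log H) ^ c) := by
  obtain ⟨c, hc, h1⟩ := family (Fin.elim0 : Fin 0 → ℤ × ℤ) (fun l => l.elim0) 2 (by omega)
  obtain ⟨c', ν0, hc', h2⟩ := h1 1 0 0 Fin.elim0 Fin.elim0 (fun t => t.1.elim0) (fib_one _ _)
  refine ⟨c, hc, fun d hd => ?_⟩
  obtain ⟨C, hC⟩ := h2 1 1 (fun _ => 0) (fun _ _ => d) Finset.univ (fun _ => 2) (fun H => Real.exp ((Real.log H) ^ c))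
    (Or.inl ⟨fun l => l.elim0, fun _ => rfl⟩) (by omega) (by simp)
    (fun j _ => ⟨by omega, dvd_zero _, fun l => dvd_mul_right 2 d⟩) (Or.inr (Or.inl ⟨0, Or.inr rfl, fun _ => by decide⟩))
  refine ⟨C, fun H hH => ?_⟩
  have h3 := hC H hH
  have h4 : Fintype.card (IxS 0 (fun _ : Fin 1 => 0) (fun (_ : Fin 1) (_ : Fin (0 + 1)) => d)) + 5 * 1 = 2 * d + 5 := by
    rw [mul_one]
    exact congrArg (· + 5) (card_co d hd)
  rw [h4] at h3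
  rw [Real.exp_neg, ← div_eq_mul_inv]
  exact le_trans (Nat.cast_le.2 (twist_var _ d H _)) h3

/-- the double covers of a fixed curve: almost none has a rational point, a positive proportion violates the Hasse
principle -/
theorem fix_all (E : ℤ × ℤ) (hE : 4 * E.1 ^ 3 + 27 * E.2 ^ 2 ≠ 0)
    (h : Module.finrank ℤ (VK.Pt (E.1 : ℚ) (E.2 : ℚ)) ≤ 1 ∨ VK.HasCM (E.1 : ℚ) (E.2 : ℚ)) :
    ∃ c : ℝ, 0 < c ∧ (∀ d : ℕ, 1 ≤ d → ∃ C : ℝ, ∀ H : ℕ, 1 ≤ H →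
      (Nat.card {a : Ix d → ℤ // (∀ k, |a k| ≤ (H : ℤ)) ∧ Tw E (Real.exp (c * (Real.log (Real.log H)) ^ 2)) a} : ℝ) ≤
        C * (H : ℝ) ^ (2 * d) * Real.exp (-(c * (Real.log (Real.log H)) ^ 2))) ∧
      ∀ d : ℕ, 2 ≤ d → ∃ (η : ℝ) (H0 : ℕ), 0 < η ∧ ∀ H : ℕ, H0 ≤ H → η * (H : ℝ) ^ (2 * d) ≤
        (Nat.card {a : Ix d → ℤ // (∀ k, |a k| ≤ (H : ℤ)) ∧ (Sol ℝ E.1 E.2 d a ∧
          ∀ (p : ℕ) [Fact p.Prime], Sol ℚ_[p] E.1 E.2 d a) ∧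
            ¬ Tw E (Real.exp (c * (Real.log (Real.log H)) ^ 2)) a} : ℝ) := by
  obtain ⟨c, hc, hX⟩ := dc_fix E hE h
  refine ⟨c, hc, hX, fun d hd => ?_⟩
  obtain ⟨η, H1, hη, h1⟩ := loc_fix d hd E.1 E.2 hE
  obtain ⟨C, hC⟩ := hX d (by omega)
  exact hp_of hη (ε := fun H => Real.exp (-(c * (Real.log (Real.log H)) ^ 2))) (C := C)
    (fun δ hδ => loglog_small hc hδ) (fun H (a : Ix d → ℤ) => ∀ k, |a k| ≤ (H : ℤ)) _
    (fun H a => Tw E (Real.exp (c * (Real.log (Real.log H)) ^ 2)) a)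
    (fun H Q' => fin_int (ι := Ix d) H Q') h1 hC

/-- the double covers of all curves: almost none has a rational point, a positive proportion violates the Hasse
principle -/
theorem var_all : ∃ c : ℝ, 0 < c ∧ (∀ d : ℕ, 1 ≤ d → ∃ C : ℝ, ∀ H : ℕ, 1 ≤ H →
      (Nat.card {a : (ℤ × ℤ) × (Ix d → ℤ) // (4 * a.1.1 ^ 3 + 27 * a.1.2 ^ 2 ≠ 0 ∧ |a.1.1| ≤ (H : ℤ) ^ 2 ∧
        |a.1.2| ≤ (H : ℤ) ^ 3 ∧ ∀ k, |a.2 k| ≤ (H : ℤ)) ∧ Tw a.1 (Real.exp ((Real.log H) ^ c)) a.2} : ℝ) ≤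
        C * (H : ℝ) ^ (2 * d + 5) * Real.exp (-(Real.log H) ^ c)) ∧
      ∀ d : ℕ, 2 ≤ d → ∃ (η : ℝ) (H0 : ℕ), 0 < η ∧ ∀ H : ℕ, H0 ≤ H → η * (H : ℝ) ^ (2 * d + 5) ≤
        (Nat.card {a : (ℤ × ℤ) × (Ix d → ℤ) // (4 * a.1.1 ^ 3 + 27 * a.1.2 ^ 2 ≠ 0 ∧ |a.1.1| ≤ (H : ℤ) ^ 2 ∧
          |a.1.2| ≤ (H : ℤ) ^ 3 ∧ ∀ k, |a.2 k| ≤ (H : ℤ)) ∧ (Sol ℝ a.1.1 a.1.2 d a.2 ∧
          ∀ (p : ℕ) [Fact p.Prime], Sol ℚ_[p] a.1.1 a.1.2 d a.2) ∧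
            ¬ Tw a.1 (Real.exp ((Real.log H) ^ c)) a.2} : ℝ) := by
  obtain ⟨c, hc, hX⟩ := dc_var
  refine ⟨c, hc, hX, fun d hd => ?_⟩
  obtain ⟨η, H1, hη, h1⟩ := loc_all d hd
  obtain ⟨C, hC⟩ := hX d (by omega)
  refine hp_of hη (ε := fun H => Real.exp (-(Real.log H) ^ c)) (C := C)
    (fun δ hδ => exp_small hc hδ) (fun H (a : (ℤ × ℤ) × (Ix d → ℤ)) => 4 * a.1.1 ^ 3 + 27 * a.1.2 ^ 2 ≠ 0 ∧
      |a.1.1| ≤ (H : ℤ) ^ 2 ∧ |a.1.2| ≤ (H : ℤ) ^ 3 ∧ ∀ k, |a.2 k| ≤ (H : ℤ)) _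
    (fun H a => Tw a.1 (Real.exp ((Real.log H) ^ c)) a.2)
    (fun H Q' => ?_) (fun H hH => (h1 H hH).trans (le_of_eq ?_)) hC
  · have := fin_box (g := 1) (τ := Ix d) H (fun z => Q' (z.1 0, z.2))
    refine Finite.of_injective (β := {z : (Fin 1 → ℤ × ℤ) × (Ix d → ℤ) // Box H z ∧ Q' (z.1 0, z.2)})
      (fun a => ⟨(fun _ => a.1.1, a.1.2), ⟨fun _ => ⟨a.2.1.1, a.2.1.2.1, a.2.1.2.2.1⟩, a.2.1.2.2.2⟩, a.2.2⟩)
      fun a b hab => ?_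
    exact Subtype.ext (Prod.ext (congrFun (congrArg (fun z => z.1.1) hab) 0) (congrArg (fun z => z.1.2) hab))
  · exact congrArg _ (Nat.card_congr (Equiv.subtypeEquivRight fun a =>
      ⟨fun h => ⟨⟨h.1, h.2.1, h.2.2.1, h.2.2.2.1⟩, h.2.2.2.2⟩, fun h => ⟨h.1.1, h.1.2.1, h.1.2.2.1, h.1.2.2.2, h.2⟩⟩))

end BI7
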